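import Pool.Agent.H7.HD.Targets4
import Pool.Agent.H4.HD.HC

/-!
# (ZA) a definable family of atoms at an ordinal of cofinality greater than `D`
-/

open Ordinal Cardinal Order Set
open scoped ZFSet

universe u

namespace Pool.Agent.H12.HD.ZA

open _root_.HD
open Pool.Agent.H4.HD.HC (posE posI posD atomDO At dsAt)

theorem X (hEA : T_EA.{u}) (hDA : T_DA.{u}) (hDB : T_DB.{u}) (hVA : T_VA.{u})
    (hVH : T_VH.{u}) : T_ZA.{u} := by
  intro en hen D M κ hD hD0 hM hMD hDκ hNS hat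
  have hE := (hEA en hen).1
  set μ := M.ord with hμ
  have hcof0 : ℵ₀ < κ.cof := hD0.trans hDκ
  set A := At en μ κ with hA
  have hAds : DS A := dsAt hDA hE μ κ
  have hnull : ∀ c ∈ A, ∀ c' ∈ A, c' < c → ¬ Pos μ κ (E en c ∩ E en c') :=
    fun c hc c' hc' hlt => hc.2 c' hlt hc'.1
  have hlim : IsSuccLimit κ := by
    rw [← Ordinal.one_lt_cof_iff]
    exact (Cardinal.one_lt_aleph0).trans hcof0
  have hne : ∀ X : Set Ordinal.{u}, Pos μ κ X → ∃ b, b ∈ X := by
    intro X hX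
    obtain ⟨b, -, -, hb, -⟩ := hX univ ⟨fun a ha => ⟨succ a, hlim.succ_lt ha, lt_succ a, trivial⟩,
      fun _ _ _ _ => trivial⟩
    exact ⟨b, hb⟩
  have hfew : Few D.ord A := by
    by_contra hnf
    have h4 := ((hVH A).2.2.2 D.ord).resolve_left hnf
    have h2 := (hVH A).2.1
    set I0 : Set Ordinal.{u} := {c | ∃ a < D.ord, nth A a c} with hI0
    have hI0A : ∀ c ∈ I0, c ∈ A := fun c ⟨a, _, h⟩ => h.1
    have hI0ds : DS I0 := by
      have h5 := hDB (fun a _ => a ∈ A) hAds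
      exact DO.exLtc (R := fun a w => nth A a (w 0)) D.ord h5
    set s : Ordinal.{u} → Ordinal.{u} → Prop := fun c b => b ∈ E en c ∧
      ∀ c' < c, c' ∈ A → b ∉ E en c' with hs
    have hsdr : DR s := by
      refine DO.and (hE.s2 (X := fun x y => x ∈ E en y) 1 0) (DO.allLt (R := fun c' w =>
        c' ∈ A → w 1 ∉ E en c') 0 ?_)
      exact hAds.imp (hE.s2 (X := fun x y => x ∈ E en y) 2 0).not
    have hpos : ∀ x ∈ I0, Pos μ κ {b | s x b} := by
      rintro c ⟨a, ha, hc, g, hg1, hg2, hg3⟩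
      have hacard : a.card < κ.cof := (Cardinal.lt_ord.1 ha).trans hDκ
      have h5 := hVA μ κ hcof0 a hacard (fun i => E en c ∩ E en (g i))
        (fun i hi => hnull c hc (g i) (hg2 i hi).1 (hg2 i hi).2)
      refine (pos_diff hVA hcof0 hc.1.pos h5).mono fun b _ hb _ => ⟨hb.1, ?_⟩
      intro c' hc' hc'A hbc'
      obtain ⟨i, hi, rfl⟩ := hg3 c' hc'A hc'
      exact hb.2 ⟨i, hi, hb.1, hbc'⟩
    have hdis : ∀ x ∈ I0, ∀ y ∈ I0, ∀ b, s x b → s y b → x = y := by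
      intro x hx y hy b h1 h2
      rcases lt_trichotomy x y with h | h | h
      · exact absurd h1.1 (h2.2 x h (hI0A x hx))
      · exact h
      · exact absurd h2.1 (h1.2 y h (hI0A y hy))
    have h6 := hNS s I0 hsdr hI0ds hpos hdis
    rw [few_iff] at h6
    refine absurd h6 (not_lt.2 ?_)
    have h7 : #(Iio D.ord) = Cardinal.lift.{u + 1} D := by
      rw [Cardinal.mk_Iio_ordinal, Cardinal.card_ord]
    rw [← h7]
    choose z hz using h4
    refine Cardinal.mk_le_of_injective (f := fun a : Iio D.ord =>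
      (⟨z a.1 a.2, a.1, a.2, hz a.1 a.2⟩ : I0)) ?_
    intro a b hab
    have h8 : z a.1 a.2 = z b.1 b.2 := congrArg Subtype.val hab
    apply Subtype.ext
    apply le_antisymm
    · by_contra hlt
      push Not at hlt
      have := (h2 b.1 a.1 _ _ (hz b.1 b.2) (hz a.1 a.2)).1 hlt
      rw [h8] at this
      exact lt_irrefl _ this
    · by_contra hlt
      push Not at hlt
      have := (h2 a.1 b.1 _ _ (hz a.1 a.2) (hz b.1 b.2)).1 hlt
      rw [h8] at this
      exact lt_irrefl _ this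
  refine ⟨A, hAds, hfew, fun c hc => hc.1, fun hNpos => ?_⟩
  have hNds : DS {b | ∀ c ∈ A, b ∉ E en c} := DO.all (R := fun c w => c ∈ A → w 0 ∉ E en c)
    (hAds.imp (hE.s2 (X := fun x y => x ∈ E en y) 1 0).not)
  obtain ⟨c1, hc1N, hc1⟩ := hat _ hNds hNpos
  have hex : ∃ c, Atom en μ κ c ∧ Pos μ κ (E en c ∩ E en c1) :=
    ⟨c1, hc1, by rw [inter_self]; exact hc1.pos⟩
  obtain ⟨c, ⟨hc, hcp⟩, hmin⟩ := WellFounded.has_min (r := ((· < ·) : Ordinal.{u} → _ → Prop))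
    Ordinal.lt_wf {c | Atom en μ κ c ∧ Pos μ κ (E en c ∩ E en c1)} hex
  have hcA : c ∈ A := by
    refine ⟨hc, fun c' hc' hat' hpos' => ?_⟩
    have h1 : ¬ Pos μ κ (E en c \ E en c') := fun h => hc.ult c' ⟨hpos', h⟩
    refine hmin c' ⟨hat', ?_⟩ hc'
    refine (pos_diff hVA hcof0 hcp h1).mono fun b _ hb _ => ⟨?_, hb.1.2⟩
    by_contra hb'
    exact hb.2 ⟨hb.1.1, hb'⟩
  obtain ⟨b, hb⟩ := hne _ hcp
  exact hc1N hb.2 c hcA hb.1

end Pool.Agent.H12.HD.ZA
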