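import Pool.Agent.H7.HD.Targets4
import Pool.Agent.H7.HD.Rec
import Pool.Agent.H43.HD.UA

/-!
# (ZB) the sequence of the ultrafilters given by a definable family of codes
-/

open Ordinal Cardinal Order Set
open scoped ZFSet

universe u

namespace Pool.Agent.H12.HD.ZB

open _root_.HD
open Pool.Agent.H43.HD.UA (posD S mem_S mem_uz od_uz)

/-- the ultrafilter of `c` is a definable function of `c` -/
theorem dz_uz (hDA : T_DA.{u}) {en : Ordinal.{u} → ZFSet.{u}} (hen : EN en)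
    (hE : DO fun w => w 0 ∈ E en (w 1)) (μ α : Ordinal.{u}) :
    DZ fun v => (v 0).IsOrdinal ∧ v 1 = uz en μ α (v 0).rank := by
  have h1 : DO fun w => ¬ Pos μ α (E en (w 1) \ E en (w 0)) := (posD hDA hE μ α 1 0).not
  obtain ⟨Q, hQ, hQ'⟩ := h1
  refine DZ.congr (P := fun v => (v 0).IsOrdinal ∧ ∀ x, x ∈ v 1 ↔
    (x ⊆ α.toZFSet ∧ ∃ z, (z.IsOrdinal ∧ x = en z.rank) ∧ Q (cons z fun _ => v 0))) ?_
    fun v => ?_
  · refine DZ.and (DZ.ord 0) (DZ.all (R := fun x v => x ∈ v 1 ↔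
      (x ⊆ α.toZFSet ∧ ∃ z, (z.IsOrdinal ∧ x = en z.rank) ∧ Q (cons z fun _ => v 0))) ?_)
    refine (DZ.mem 0 2).iff (DZ.and
      (DZ.od (R := fun a v => v 0 ⊆ a) (OD.ordinal α) (Loc.sub 1 0).dz) ?_)
    refine DZ.ex (R := fun z v => (z.IsOrdinal ∧ v 0 = en z.rank) ∧ Q (cons z fun _ => v 1)) ?_
    refine (hen.dz).and ((hQ.ren (fun n => if n = 0 then 0 else 2)).congr fun v => ?_)
    have : (cons (v 0) fun _ => v 2) = fun n => v (if n = 0 then 0 else 2) := by
      funext n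
      rcases n with _ | n <;> simp
    show Q (cons (v 0) fun _ => v 2) ↔ _
    rw [this]
  · refine and_congr_right fun h0 => ?_
    have key : ∀ x, x ∈ uz en μ α (v 0).rank ↔ (x ⊆ α.toZFSet ∧
        ∃ z, (z.IsOrdinal ∧ x = en z.rank) ∧ Q (cons z fun _ => v 0)) := by
      intro x
      rw [mem_uz]
      refine and_congr_right fun _ => ?_
      have e : ∀ a : Ordinal.{u}, (cons a.toZFSet fun _ => v 0) = ov (cns a fun _ => (v 0).rank) := by
        intro a
        rw [ov_cns]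
        congr 1
        funext n
        exact h0.toZFSet_rank_eq.symm
      constructor
      · rintro ⟨h2, h3⟩
        obtain ⟨c', hc'⟩ := (hen.od _).1 h2
        refine ⟨c'.toZFSet, ⟨ZFSet.isOrdinal_toZFSet c', by rw [rank_toZFSet, hc']⟩, ?_⟩
        rw [e]
        refine (hQ' (cns c' fun _ => (v 0).rank)).1 ?_
        rw [← hc'] at h3
        exact h3
      · rintro ⟨z, ⟨hz, h2⟩, h3⟩
        refine ⟨(hen.od _).2 ⟨z.rank, h2.symm⟩, ?_⟩
        have h4 : z = z.rank.toZFSet := hz.toZFSet_rank_eq.symm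
        rw [h4, e] at h3
        have h5 := (hQ' (cns z.rank fun _ => (v 0).rank)).2 h3
        rw [h2]
        exact h5
    constructor
    · intro h x
      rw [h, key]
    · intro h
      ext x
      rw [h, key]

theorem hod_uz (hDA : T_DA.{u}) {en : Ordinal.{u} → ZFSet.{u}} (hen : EN en)
    (hE : DO fun w => w 0 ∈ E en (w 1)) (μ α c : Ordinal.{u}) : HOD (uz en μ α c) := by
  refine hod_iff.2 ⟨od_uz hDA hen hE μ α c, fun y hy => ?_⟩
  rw [mem_uz] at hy
  exact HOD.of_sub hy.2.1 hy.1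

theorem X (hEA : T_EA.{u}) (hDA : T_DA.{u}) (hDB : T_DB.{u}) (hVH : T_VH.{u}) : T_ZB.{u} := by
  intro en hen D μ α I hIds hfew
  classical
  have hE := (hEA en hen).1
  obtain ⟨hV1, hV2, hV3, -⟩ := hVH I
  -- the order type of `I`
  have hex : ∃ a, a < D.ord ∧ ¬ ∃ z, nth I a z := by
    by_contra hcon
    push Not at hcon
    rw [few_iff] at hfew
    refine absurd hfew (not_lt.2 ?_)
    have h7 : #(Iio D.ord) = Cardinal.lift.{u + 1} D := by
      rw [Cardinal.mk_Iio_ordinal, Cardinal.card_ord]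
    rw [← h7]
    choose z hz using hcon
    refine Cardinal.mk_le_of_injective (f := fun a : Iio D.ord =>
      (⟨z a.1 a.2, (hz a.1 a.2).1⟩ : I)) ?_
    intro a b hab
    have h8 : z a.1 a.2 = z b.1 b.2 := congrArg Subtype.val hab
    apply Subtype.ext
    apply le_antisymm
    · by_contra hlt
      push Not at hlt
      have := (hV2 b.1 a.1 _ _ (hz b.1 b.2) (hz a.1 a.2)).1 hlt
      rw [h8] at this
      exact lt_irrefl _ this
    · by_contra hlt
      push Not at hlt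
      have := (hV2 a.1 b.1 _ _ (hz a.1 a.2) (hz b.1 b.2)).1 hlt
      rw [h8] at this
      exact lt_irrefl _ this
  obtain ⟨a1, ha1, ha1'⟩ := hex
  obtain ⟨τ, hτ, hmin⟩ := WellFounded.has_min (r := ((· < ·) : Ordinal.{u} → _ → Prop))
    Ordinal.lt_wf {a | ¬ ∃ z, nth I a z} ⟨a1, ha1'⟩
  have hτD : τ < D.ord := (not_lt.1 (hmin a1 ha1')).trans_lt ha1
  have hτ1 : ∀ a < τ, ∃ z, nth I a z := by
    intro a ha
    by_contra hcon
    exact hmin a hcon ha
  have hτ2 : ∀ a z, nth I a z → a < τ := by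
    intro a z hz
    by_contra hcon
    rcases (not_lt.1 hcon).eq_or_lt with h | h
    · exact hτ ⟨z, by rw [h]; exact hz⟩
    · obtain ⟨y, -, hy⟩ := hV3 a z hz τ h
      exact hτ ⟨y, hy⟩
  have hch : ∀ a, ∃ z, a < τ → nth I a z := by
    intro a
    by_cases h : a < τ
    · obtain ⟨z, hz⟩ := hτ1 a h
      exact ⟨z, fun _ => hz⟩
    · exact ⟨0, fun h' => absurd h' h⟩
  choose g hg using hch
  have huniq : ∀ a z z', nth I a z → nth I a z' → z = z' := by
    intro a z z' h1 h2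
    rcases lt_trichotomy z z' with h | h | h
    · exact absurd ((hV2 a a z z' h1 h2).2 h) (lt_irrefl _)
    · exact h
    · exact absurd ((hV2 a a z' z h2 h1).2 h) (lt_irrefl _)
  set F := gr (fun a => uz en μ α (g a)) τ with hF
  refine ⟨τ, hτD, F, ZFSet.range (fun b : Iio τ => uz en μ α (g b.1)), ?_, ?_, ?_, ?_⟩
  · refine hod_iff.2 ⟨?_, ?_⟩
    · have h5 := hDB (fun a _ => a ∈ I) hIds
      obtain ⟨Q, hQ, hQ'⟩ := h5
      refine OD.of_mem (P := fun v => ∃ x ∈ τ.toZFSet, ∃ c, ∃ u, Q (cons x fun _ => c) ∧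
        (c.IsOrdinal ∧ u = uz en μ α c.rank) ∧ v 0 = ZFSet.pair x u) ?_ fun v => ?_
      · refine DZ.od (R := fun a v => ∃ x ∈ a, ∃ c, ∃ u, Q (cons x fun _ => c) ∧
          (c.IsOrdinal ∧ u = uz en μ α c.rank) ∧ v 0 = ZFSet.pair x u) (OD.ordinal τ)
          (DZ.exMem 0 ?_)
        refine DZ.ex (R := fun c v => ∃ u, Q (cons (v 0) fun _ => c) ∧
          (c.IsOrdinal ∧ u = uz en μ α c.rank) ∧ v 2 = ZFSet.pair (v 0) u) ?_
        refine DZ.ex (R := fun u v => Q (cons (v 1) fun _ => v 0) ∧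
          ((v 0).IsOrdinal ∧ u = uz en μ α (v 0).rank) ∧ v 3 = ZFSet.pair (v 1) u) ?_
        refine DZ.and ?_ (DZ.and ?_ (loc_pair 4 2 0).dz)
        · refine (hQ.ren (fun n => if n = 0 then 2 else 1)).congr fun v => ?_
          have : (cons (v 2) fun _ => v 1) = fun n => v (if n = 0 then 2 else 1) := by
            funext n
            rcases n with _ | n <;> simp
          show Q (cons (v 2) fun _ => v 1) ↔ _
          rw [this]
        · exact (dz_uz hDA hen hE μ α).ren (fun n => if n = 0 then 1 else 0)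
      · have e : ∀ a b : Ordinal.{u}, (cons a.toZFSet fun _ => b.toZFSet) =
            ov (cns a fun _ => b) := by
          intro a b
          rw [ov_cns]
          rfl
        rw [hF, mem_gr]
        constructor
        · rintro ⟨x, hx, c, u, hq, ⟨hc, rfl⟩, hv⟩
          obtain ⟨a, ha, rfl⟩ := mem_toZFSet_iff.1 hx
          have h4 : c = c.rank.toZFSet := hc.toZFSet_rank_eq.symm
          rw [h4, e] at hq
          have h6 : nth I a c.rank := (hQ' (cns a fun _ => c.rank)).2 hq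
          refine ⟨a, ha, ?_⟩
          rw [hv, huniq a _ _ (hg a ha) h6]
        · rintro ⟨a, ha, hv⟩
          refine ⟨a.toZFSet, toZFSet_mem_toZFSet_iff.2 ha, (g a).toZFSet, _, ?_,
            ⟨ZFSet.isOrdinal_toZFSet _, rfl⟩, ?_⟩
          · rw [e]
            exact (hQ' (cns a fun _ => g a)).1 (hg a ha)
          · rw [hv, rank_toZFSet]
    · intro y hy
      obtain ⟨b, -, rfl⟩ := mem_gr.1 hy
      exact (HOD.ordinal b).pair (hod_uz hDA hen hE μ α (g b))
  · refine ⟨fun p hp => ?_, fun z hz => ?_⟩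
    · obtain ⟨b, hb, rfl⟩ := mem_gr.1 hp
      refine ZFSet.pair_mem_prod.2 ⟨toZFSet_mem_toZFSet_iff.2 hb, ?_⟩
      rw [ZFSet.mem_range]
      exact ⟨⟨b, hb⟩, rfl⟩
    · obtain ⟨a, ha, rfl⟩ := mem_toZFSet_iff.1 hz
      refine ⟨_, pair_mem_gr.2 ⟨ha, rfl⟩, fun w hw => (pair_mem_gr.1 hw).2⟩
  · intro i hi U hU
    exact ⟨g i, (hg i hi).1, (pair_mem_gr.1 hU).2⟩
  · intro c hc
    obtain ⟨a, -, ha⟩ := hV1 c hc
    have haτ := hτ2 a c ha
    refine ⟨a, haτ, pair_mem_gr.2 ⟨haτ, ?_⟩⟩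
    rw [huniq a _ _ (hg a haτ) ha]

end Pool.Agent.H12.HD.ZB
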